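import Pool.Agent.H84.HKB.SUP

/-!
# Row BAD of hkb_modules (MP_bd932b_co): few bad tuples of a given pattern
-/

set_option autoImplicit false

namespace Pool.Agent.H84.HKB

open Finset Pool.Agent.H41.HKB Pool.Agent.H42.BD
open scoped Classical

noncomputable section

theorem cbu {α β : Type} (s : Finset α) (F : Finset β) (P : α → β → Prop) (b : ℝ)
    (h : ∀ a ∈ s, ∀ F' : Finset β, (∀ y ∈ F', y ∈ F ∧ P a y) → (F'.card : ℝ) ≤ b)
    (hF : ∀ y ∈ F, ∃ a ∈ s, P a y) : (F.card : ℝ) ≤ s.card * b := by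
  have h0 : F ⊆ s.biUnion (fun a => F.filter (fun y => P a y)) := by
    intro y hy
    obtain ⟨a, ha, hay⟩ := hF y hy
    exact mem_biUnion.2 ⟨a, ha, mem_filter.2 ⟨hy, hay⟩⟩
  have h1 : (F.card : ℝ) ≤ ∑ a ∈ s, ((F.filter (fun y => P a y)).card : ℝ) := by
    exact_mod_cast le_trans (Finset.card_le_card h0) Finset.card_biUnion_le
  replace h : ∀ a ∈ s, ((F.filter (fun y => P a y)).card : ℝ) ≤ b :=
    fun a ha => h a ha _ (fun y hy => mem_filter.1 hy)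
  refine le_trans h1 (le_trans (Finset.sum_le_sum h) ?_)
  rw [Finset.sum_const, nsmul_eq_mul]

theorem cfib {α β : Type} (s : Finset α) (f : α → β) (b c : ℝ) (hb : 0 ≤ b)
    (hc : ∀ F : Finset β, (∀ g ∈ F, ∃ y ∈ s, f y = g) → (F.card : ℝ) ≤ c)
    (h : ∀ y0 ∈ s, ∀ F : Finset α, (∀ y ∈ F, y ∈ s ∧ f y = f y0) → (F.card : ℝ) ≤ b) :
    (s.card : ℝ) ≤ c * b := by
  have h1 : (s.card : ℝ) = ∑ g ∈ s.image f, ((s.filter (fun y => f y = g)).card : ℝ) := by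
    exact_mod_cast Finset.card_eq_sum_card_image f s
  rw [h1]
  refine le_trans (Finset.sum_le_sum (g := fun _ => b) ?_) ?_
  · intro g hg
    obtain ⟨y0, hy0, rfl⟩ := Finset.mem_image.1 hg
    exact h y0 hy0 _ (fun y hy => Finset.mem_filter.1 hy)
  · rw [Finset.sum_const, nsmul_eq_mul]
    exact mul_le_mul_of_nonneg_right (hc _ (fun g hg => Finset.mem_image.1 hg)) hb

theorem Dd_pos {k : ℕ} {M ε : ℝ} (hk : 2 ≤ k) : 0 < Dd k M ε := by
  unfold Dd C2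
  have h1 : (0 : ℝ) ≤ (k : ℝ) - 1 := by
    have : (2 : ℝ) ≤ k := by exact_mod_cast hk
    linarith
  have : 0 ≤ ((k : ℝ) - 1) * ((Pool.Agent.H41.HKB.hk k : ℝ) + 1) * M ^ 2 / ε ^ 2 := by
    positivity
  linarith

variable {V : Type} [Fintype V]

/-- tuples outside the class of `l`, deep in their classes -/
abbrev Wt {k : ℕ} (ε : ℝ) (G : SimpleGraph V) (x : V) (ρ : Fin k → Fin k) (l : Fin k) : Type :=
  {g : {m : Fin k // ρ m ≠ ρ l} → V // (∀ m, G.Adj x (g m)) ∧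
    ∀ m m', m ≠ m' → ρ m.1 = ρ m'.1 → Dp ε G (g m) (g m')}

theorem card_Wt {k : ℕ} (hCTQ : T_CTQ) {M ε : ℝ} (hk : 2 ≤ k) (hM : 0 < M) (hε : 0 < ε)
    {G : SimpleGraph V} (hGd : Gd k M G) (x : V) (ρ : Fin k → Fin k) (l : Fin k) :
    (Fintype.card (Wt ε G x ρ l) : ℝ) ≤ sB k M ε V ^ (cls ρ - 1) := by
  have h1 : Fintype.card (Wt ε G x ρ l) ≤
      Fintype.card (∀ d : {d : Cls ρ // d ≠ ⟨ρ l, l, rfl⟩}, At ε G x ρ d.1) := by
    refine Fintype.card_le_of_injective (fun g d => ⟨fun i => g.1 ⟨i.1, ?_⟩, ?_, ?_⟩) ?_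
    · intro h
      exact d.2 (Subtype.ext (i.2.symm.trans h))
    · intro i
      exact g.2.1 _
    · intro i j hij
      exact g.2.2 _ _ (fun h => hij (Subtype.ext (congrArg (fun t => t.1) h)))
        (i.2.trans j.2.symm)
    · intro g g' h
      refine Subtype.ext (funext (fun m => ?_))
      have h2 := congrFun h ⟨⟨ρ m.1, m.1, rfl⟩, fun h => m.2 (congrArg Subtype.val h)⟩
      have h3 := congrFun (congrArg Subtype.val h2) ⟨m.1, rfl⟩
      exact h3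
  have h2 : (Fintype.card (∀ d : {d : Cls ρ // d ≠ ⟨ρ l, l, rfl⟩}, At ε G x ρ d.1) : ℝ) ≤
      sB k M ε V ^ (cls ρ - 1) := by
    rw [Fintype.card_pi, Nat.cast_prod]
    refine le_trans (Finset.prod_le_prod (g := fun _ => sB k M ε V)
      (fun d _ => by positivity) (fun d _ => card_At hCTQ hk hM hε hGd x ρ d.1)) ?_
    rw [Finset.prod_const, Finset.card_univ, Fintype.card_subtype_compl,
      card_Cls, Fintype.card_subtype_eq]
  exact le_trans (by exact_mod_cast h1) h2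

/-- the tuples with a connector of `i`, `j` that touches `l` -/
def Sb {k : ℕ} (T : ℕ) (ε ε' : ℝ) (G : SimpleGraph V) (x : V) (ρ : Fin k → Fin k)
    (i j l : Fin k) : Finset (Fin k → V) :=
  (YS T ε ε' G x ρ).filter (fun y => ∃ z ∈ Np T ε ε' G x (y i) (y j), G.Adj z (y l))

/-- restriction to the complement of the class of `l` -/
def rs {k : ℕ} (ρ : Fin k → Fin k) (l : Fin k) (y : Fin k → V) : {m : Fin k // ρ m ≠ ρ l} → V :=
  fun m => y m.1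

theorem mem_YS {k : ℕ} {T : ℕ} {ε ε' : ℝ} {G : SimpleGraph V} {x : V} {ρ : Fin k → Fin k}
    {y : Fin k → V} : y ∈ YS T ε ε' G x ρ ↔ (∀ i, G.Adj x (y i)) ∧
    (∀ i j, i ≠ j → ρ i = ρ j → Dp ε G (y i) (y j)) ∧
    (∀ i j, ρ i ≠ ρ j → Lt T G (y i) (y j) ∧ (Np T ε ε' G x (y i) (y j)).Nonempty ∧
      bl T ε ε' G x ρ y i j ≤ 1) := by
  unfold YS
  rw [mem_filter]
  simp only [mem_univ, true_and]

theorem card_img {k : ℕ} (hCTQ : T_CTQ) {M ε : ℝ} (hk : 2 ≤ k) (hM : 0 < M) (hε : 0 < ε)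
    {G : SimpleGraph V} (hGd : Gd k M G) (x : V) (ρ : Fin k → Fin k) (T : ℕ) (ε' : ℝ)
    (i j l : Fin k) (F : Finset ({m : Fin k // ρ m ≠ ρ l} → V))
    (hF : ∀ g ∈ F, ∃ y ∈ Sb T ε ε' G x ρ i j l, rs ρ l y = g) :
    (F.card : ℝ) ≤ sB k M ε V ^ (cls ρ - 1) := by
  refine le_trans ?_ (card_Wt hCTQ hk hM hε hGd x ρ l)
  have h0 : ∀ g ∈ F, (∀ m, G.Adj x (g m)) ∧
      ∀ m m', m ≠ m' → ρ m.1 = ρ m'.1 → Dp ε G (g m) (g m') := by
    intro g hg
    obtain ⟨y, hy, rfl⟩ := hF g hg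
    unfold Sb at hy
    rw [mem_filter, mem_YS] at hy
    exact ⟨fun m => hy.1.1 _, fun m m' hm hr => hy.1.2.1 _ _ (fun h => hm (Subtype.ext h)) hr⟩
  have h1 : Fintype.card {g // g ∈ F} ≤ Fintype.card (Wt ε G x ρ l) :=
    Fintype.card_le_of_injective (fun g => ⟨g.1, h0 g.1 g.2⟩)
      (fun g g' h => Subtype.ext (congrArg (fun t => t.1) h))
  rw [Fintype.card_coe] at h1
  exact_mod_cast h1

theorem card_fib {k : ℕ} (hCTP : T_CTP) {M ε : ℝ} (hk : 2 ≤ k) (hM : 0 < M) (hε : 0 < ε)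
    {G : SimpleGraph V} (hGd : Gd k M G) (x : V) (ρ : Fin k → Fin k) (T : ℕ) {ε' : ℝ}
    (hε' : 0 < ε') {i j l : Fin k} (hij : ρ i ≠ ρ j) (hli : ρ l ≠ ρ i) (hlj : ρ l ≠ ρ j)
    (y0 : Fin k → V) (hy0 : y0 ∈ Sb T ε ε' G x ρ i j l) (F : Finset (Fin k → V))
    (hF : ∀ y ∈ F, y ∈ Sb T ε ε' G x ρ i j l ∧ rs ρ l y = rs ρ l y0) :
    (F.card : ℝ) ≤ T * (ε' * sn V * Dd k M ε ^ k) := by
  unfold Sb at hy0
  rw [mem_filter, mem_YS] at hy0
  have hlt := (hy0.1.2.2 i j hij).1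
  set D : V → Finset (Fin k → V) := fun v => univ.filter (fun y => rs ρ l y = rs ρ l y0 ∧
    y l = v ∧ ∀ a b, a ≠ b → ρ a = ρ l → ρ b = ρ l → Dp ε G (y a) (y b)) with hD
  have hDd : 0 < Dd k M ε := Dd_pos hk
  have hsn : 0 ≤ sn V := Real.sqrt_nonneg _
  have hDc : ∀ v, ((D v).card : ℝ) ≤ Dd k M ε ^ k := by
    intro v
    have hC := hCTP k M ε hk hM hε V G hGd {m : Fin k // ρ m = ρ l} ⟨l, rfl⟩ v
      (le_trans (Fintype.card_subtype_le _) (by simp))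
    refine le_trans (Nat.cast_le.2 (Finset.card_le_card_of_injOn (s := D v)
      (fun y m => y m.1) ?_ ?_)) hC
    · intro y hy
      have hy' := (mf.1 (Finset.mem_coe.1 hy)).2
      refine Finset.mem_coe.2 (mf.2 ⟨mu _, hy'.2.1, fun a b hab => ?_⟩)
      exact hy'.2.2 a.1 b.1 (fun h => hab (Subtype.ext h)) a.2 b.2
    · intro y hy y' hy' h
      have h1 := (mf.1 (Finset.mem_coe.1 hy)).2
      have h2 := (mf.1 (Finset.mem_coe.1 hy')).2
      funext m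
      by_cases hm : ρ m = ρ l
      · exact congrFun h ⟨m, hm⟩
      · exact congrFun (h1.1.trans h2.1.symm) ⟨m, hm⟩
  have hc1 : (F.card : ℝ) ≤
      (Np T ε ε' G x (y0 i) (y0 j)).card * (ε' * sn V * Dd k M ε ^ k) := by
    refine cbu _ F (fun z y => G.Adj z (y l)) _ (fun z hz F' hF' => ?_) (fun y hy => ?_)
    · refine le_trans (cbu (cn G x z) F' (fun v y => y l = v) (Dd k M ε ^ k)
        (fun v hv F'' hF'' => ?_) (fun y hy => ?_)) ?_
      · refine le_trans ?_ (hDc v)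
        refine Nat.cast_le.2 (Finset.card_le_card (fun y hy => ?_))
        obtain ⟨hy1, hy2⟩ := hF'' y hy
        obtain ⟨hy3, hy4⟩ := hF y (hF' y hy1).1
        unfold Sb at hy3
        rw [mem_filter, mem_YS] at hy3
        rw [hD]
        refine mf.2 ⟨mu _, hy4, hy2, fun a b hab ha hb => ?_⟩
        exact hy3.1.2.1 a b hab (ha.trans hb.symm)
      · obtain ⟨hy3, hy4⟩ := hF y (hF' y hy).1
        unfold Sb at hy3
        rw [mem_filter, mem_YS] at hy3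
        exact ⟨y l, mem_cn.2 ⟨hy3.1.1 l, (hF' y hy).2⟩, rfl⟩
      · refine mul_le_mul_of_nonneg_right ?_ (by positivity)
        exact le_of_lt (mem_Np.1 hz).1.2.2
    · obtain ⟨hy1, hy2⟩ := hF y hy
      unfold Sb at hy1
      rw [mem_filter, mem_YS] at hy1
      obtain ⟨hy3, z, hz, hzl⟩ := hy1
      have ei : y i = y0 i := congrFun hy2 ⟨i, fun h => hli h.symm⟩
      have ej : y j = y0 j := congrFun hy2 ⟨j, fun h => hlj h.symm⟩
      rw [ei, ej] at hz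
      exact ⟨z, hz, hzl⟩
  have hc2 : ((Np T ε ε' G x (y0 i) (y0 j)).card : ℝ) ≤ T := by
    have h1 := Finset.card_le_card (Np_sub_cn (T := T) (ε := ε) (ε' := ε') (G := G) (x := x)
      (y := y0 i) (y' := y0 j))
    have h2 := hlt.2
    unfold cd at h2
    exact_mod_cast le_trans h1 (le_of_lt h2)
  exact le_trans hc1 (mul_le_mul_of_nonneg_right hc2 (by positivity))

theorem pf_BAD (hCTP : T_CTP) (hCTQ : T_CTQ) : T_BAD := by
  intro k T M ε ε' hk hM hε hε' V _ G x ρ hGd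
  have hDd : 0 < Dd k M ε := Dd_pos hk
  have hsn : 0 ≤ sn V := Real.sqrt_nonneg _
  have hs : 0 ≤ sB k M ε V := by unfold sB; positivity
  set B : ℝ := T * (ε' * sn V * Dd k M ε ^ k) * sB k M ε V ^ (cls ρ - 1) with hB
  have hB0 : 0 ≤ B := by positivity
  have hS : ∀ t : Fin k × Fin k × Fin k, t ∈ (univ.filter (fun t : Fin k × Fin k × Fin k =>
      ρ t.1 ≠ ρ t.2.1 ∧ ρ t.2.2 ≠ ρ t.1 ∧ ρ t.2.2 ≠ ρ t.2.1)) →
      ((Sb T ε ε' G x ρ t.1 t.2.1 t.2.2).card : ℝ) ≤ B := by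
    intro t ht
    have ht' := (mem_filter.1 ht).2
    rw [hB, mul_comm]
    exact cfib _ (rs ρ t.2.2) (T * (ε' * sn V * Dd k M ε ^ k)) _ (by positivity)
      (fun F hF => card_img hCTQ hk hM hε hGd x ρ T ε' _ _ _ F hF)
      (fun y0 hy0 F hF => card_fib hCTP hk hM hε hGd x ρ T hε' ht'.1 ht'.2.1 ht'.2.2 y0 hy0 F hF)
  have hc : ((univ.filter (fun t : Fin k × Fin k × Fin k =>
      ρ t.1 ≠ ρ t.2.1 ∧ ρ t.2.2 ≠ ρ t.1 ∧ ρ t.2.2 ≠ ρ t.2.1)).card : ℝ) ≤ (k : ℝ) ^ 3 := by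
    have h1 : (univ.filter (fun t : Fin k × Fin k × Fin k =>
      ρ t.1 ≠ ρ t.2.1 ∧ ρ t.2.2 ≠ ρ t.1 ∧ ρ t.2.2 ≠ ρ t.2.1)).card ≤ k ^ 3 := by
      refine le_trans (Finset.card_filter_le _ _) (le_of_eq ?_)
      rw [Finset.card_univ, Fintype.card_prod, Fintype.card_prod, Fintype.card_fin]
      ring
    exact_mod_cast h1
  refine le_trans (cbu _ _ (fun t y => y ∈ Sb T ε ε' G x ρ t.1 t.2.1 t.2.2) B
    (fun t ht F' hF' => le_trans (Nat.cast_le.2 (Finset.card_le_card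
      (fun y hy => (hF' y hy).2))) (hS t ht)) (fun y hy => ?_)) ?_
  · rw [mem_filter] at hy
    obtain ⟨hy1, i, j, l, h1, h2, h3, z, hz, hzl⟩ := hy
    refine ⟨(i, j, l), mem_filter.2 ⟨mem_univ _, h1, h2, h3⟩, ?_⟩
    unfold Sb
    exact mem_filter.2 ⟨hy1, z, hz, hzl⟩
  · refine le_trans (mul_le_mul_of_nonneg_right hc hB0) (le_of_eq ?_)
    rw [hB]
    ring

end

end Pool.Agent.H84.HKB
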