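import Pool.Agent.H41.HKB.Targets

/-!
# Row SUP of hkb_modules (MP_bd932b_co): many tuples of a given pattern
-/

set_option autoImplicit false

namespace Pool.Agent.H84.HKB

open Finset Pool.Agent.H41.HKB Pool.Agent.H42.BD
open scoped Classical

noncomputable section

theorem mf {α : Type} {p : α → Prop} {hp : DecidablePred p} {s : Finset α} {a : α} :
    a ∈ @Finset.filter α p hp s ↔ a ∈ s ∧ p a := Finset.mem_filter

theorem mu {α : Type} {h : Fintype α} (a : α) : a ∈ @Finset.univ α h := Finset.mem_univ a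

/-- a double sum over two classes -/
theorem sup_sum {k : ℕ} (ρ : Fin k → Fin k) (d d' : Fin k) (f : Fin k → Fin k → ℝ) :
    ∑ i : {i : Fin k // ρ i = d}, ∑ j : {j : Fin k // ρ j = d'}, f i.1 j.1 =
      ∑ a : Fin k, ∑ b : Fin k, (if ρ a = d ∧ ρ b = d' then f a b else 0) := by
  have h1 : ∀ (e : Fin k) (g : Fin k → ℝ), ∑ j : {j : Fin k // ρ j = e}, g j.1 =
      ∑ b : Fin k, (if ρ b = e then g b else 0) := by
    intro e g
    rw [← Finset.sum_filter]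
    symm
    exact Finset.sum_subtype _ (fun j => by simp) _
  rw [h1 d (fun i => ∑ j : {j : Fin k // ρ j = d'}, f i j.1)]
  refine Finset.sum_congr rfl (fun a _ => ?_)
  by_cases ha : ρ a = d
  · rw [if_pos ha, h1 d' (fun j => f a j)]
    refine Finset.sum_congr rfl (fun b _ => ?_)
    by_cases hb : ρ b = d'
    · rw [if_pos hb, if_pos ⟨ha, hb⟩]
    · rw [if_neg hb, if_neg (fun h => hb h.2)]
  · rw [if_neg ha]
    symm
    refine Finset.sum_eq_zero (fun b _ => ?_)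
    rw [if_neg (fun h => ha h.1)]

section

variable {V : Type} [Fintype V]

/-- the values of `ρ` -/
abbrev Cls {k : ℕ} (ρ : Fin k → Fin k) : Type := {d : Fin k // ∃ i, ρ i = d}

/-- deep tuples in a class -/
abbrev At {k : ℕ} (ε : ℝ) (G : SimpleGraph V) (x : V) (ρ : Fin k → Fin k) (d : Cls ρ) : Type :=
  {g : {i : Fin k // ρ i = d.1} → V // (∀ i, G.Adj x (g i)) ∧ ∀ i j, i ≠ j → Dp ε G (g i) (g j)}

/-- the relation between two classes -/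
def Et {k : ℕ} (T : ℕ) (ε ε' : ℝ) (G : SimpleGraph V) (x : V) (ρ : Fin k → Fin k)
    (d d' : Cls ρ) (a : At ε G x ρ d) (b : At ε G x ρ d') : Prop :=
  (∀ i j, Lt T G (a.1 i) (b.1 j) ∧ (Np T ε ε' G x (a.1 i) (b.1 j)).Nonempty) ∧
    ∑ i, ∑ j, wp T ε ε' G x (a.1 i) (b.1 j) ≤ 1

theorem Et_symm {k : ℕ} (T : ℕ) (ε ε' : ℝ) (G : SimpleGraph V) (x : V) (ρ : Fin k → Fin k)
    (d d' : Cls ρ) (a : At ε G x ρ d) (b : At ε G x ρ d') (h : Et T ε ε' G x ρ d d' a b) :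
    Et T ε ε' G x ρ d' d b a := by
  refine ⟨fun i j => ⟨(h.1 j i).1.symm, ?_⟩, ?_⟩
  · rw [Np_comm]
    exact (h.1 j i).2
  · rw [Finset.sum_comm]
    refine le_trans (le_of_eq ?_) h.2
    refine Finset.sum_congr rfl (fun i _ => Finset.sum_congr rfl (fun j _ => ?_))
    rw [wp_comm]

/-- the tuple of a choice in all classes -/
def glue {k : ℕ} {ε : ℝ} {G : SimpleGraph V} {x : V} {ρ : Fin k → Fin k}
    (f : ∀ d : Cls ρ, At ε G x ρ d) (i : Fin k) : V := (f ⟨ρ i, i, rfl⟩).1 ⟨i, rfl⟩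

theorem glue_eq {k : ℕ} {ε : ℝ} {G : SimpleGraph V} {x : V} {ρ : Fin k → Fin k}
    (f : ∀ d : Cls ρ, At ε G x ρ d) (d : Cls ρ) (i : Fin k) (hi : ρ i = d.1) :
    glue f i = (f d).1 ⟨i, hi⟩ := by
  obtain ⟨d, hd⟩ := d
  simp only at hi
  subst hi
  rfl

theorem glue_inj {k : ℕ} {ε : ℝ} {G : SimpleGraph V} {x : V} {ρ : Fin k → Fin k} :
    Function.Injective (fun f : (∀ d : Cls ρ, At ε G x ρ d) => (glue f : Fin k → V)) := by
  intro f g h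
  funext d
  refine Subtype.ext (funext (fun i => ?_))
  have h1 := congrFun h i.1
  simp only at h1
  rw [glue_eq f d i.1 i.2, glue_eq g d i.1 i.2] at h1
  exact h1

theorem glue_mem {k : ℕ} {T : ℕ} {ε ε' : ℝ} {G : SimpleGraph V} {x : V} {ρ : Fin k → Fin k}
    (f : ∀ d : Cls ρ, At ε G x ρ d)
    (hf : ∀ d d', d ≠ d' → Et T ε ε' G x ρ d d' (f d) (f d')) :
    glue f ∈ YS T ε ε' G x ρ := by
  unfold YS
  rw [mem_filter]
  refine ⟨mem_univ _, fun i => (f ⟨ρ i, i, rfl⟩).2.1 _, ?_, ?_⟩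
  · intro i j hij hr
    rw [glue_eq f ⟨ρ j, j, rfl⟩ i hr]
    exact (f ⟨ρ j, j, rfl⟩).2.2 ⟨i, hr⟩ ⟨j, rfl⟩ (fun h => hij (congrArg Subtype.val h))
  · intro i j hij
    have hd : (⟨ρ i, i, rfl⟩ : Cls ρ) ≠ ⟨ρ j, j, rfl⟩ := fun h => hij (congrArg Subtype.val h)
    have hE := hf _ _ hd
    refine ⟨(hE.1 ⟨i, rfl⟩ ⟨j, rfl⟩).1, (hE.1 ⟨i, rfl⟩ ⟨j, rfl⟩).2, ?_⟩
    refine le_trans (le_of_eq ?_) hE.2
    unfold bl
    rw [← sup_sum ρ (ρ i) (ρ j) (fun a b => wp T ε ε' G x (glue f a) (glue f b))]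
    refine Finset.sum_congr rfl (fun a _ => Finset.sum_congr rfl (fun b _ => ?_))
    rw [glue_eq f ⟨ρ i, i, rfl⟩ a.1 a.2, glue_eq f ⟨ρ j, j, rfl⟩ b.1 b.2]

/-- the restriction of a template to a class -/
def tpl {k : ℕ} {T : ℕ} {ε : ℝ} {G : SimpleGraph V} {x : V} {ρ : Fin k → Fin k}
    {Z : Finset V} {Y : V → Fin k → V}
    (hinj : ∀ z ∈ Z, Function.Injective (Y z)) (hSp : ∀ z ∈ Z, ∀ i, Y z i ∈ Sp T ε G x z)
    (hρ : ∀ z ∈ Z, ∀ i j, (ρ i = ρ j ↔ Sm ε G (Y z i) (Y z j)))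
    (z : {z : V // z ∈ Z}) (d : Cls ρ) : At ε G x ρ d :=
  ⟨fun i => Y z.1 i.1, fun i => (mem_cn.1 (Sp_sub (hSp z.1 z.2 i.1))).1, fun i j hij => by
    rcases (hρ z.1 z.2 i.1 j.1).1 (i.2.trans j.2.symm) with h | h
    · exact absurd (Subtype.ext (hinj z.1 z.2 h)) hij
    · exact h⟩

theorem tpl_E {k : ℕ} {T : ℕ} {ε ε' : ℝ} {G : SimpleGraph V} {x : V} {ρ : Fin k → Fin k}
    {Z : Finset V} {Y : V → Fin k → V} (hZ : Z ⊆ Zp ε' G x)
    (hinj : ∀ z ∈ Z, Function.Injective (Y z)) (hSp : ∀ z ∈ Z, ∀ i, Y z i ∈ Sp T ε G x z)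
    (hρ : ∀ z ∈ Z, ∀ i j, (ρ i = ρ j ↔ Sm ε G (Y z i) (Y z j)))
    (hbl : ∀ z ∈ Z, ∀ i j, ρ i ≠ ρ j → bl T ε ε' G x ρ (Y z) i j ≤ 1)
    (z : {z : V // z ∈ Z}) (d d' : Cls ρ) (hd : d ≠ d') :
    Et T ε ε' G x ρ d d' (tpl hinj hSp hρ z d) (tpl hinj hSp hρ z d') := by
  have hne : d.1 ≠ d'.1 := fun h => hd (Subtype.ext h)
  refine ⟨fun i j => ?_, ?_⟩
  · have hij : ρ i.1 ≠ ρ j.1 := by rw [i.2, j.2]; exact hne
    refine ⟨?_, ⟨z.1, ?_⟩⟩
    · rcases Sp_cases (hSp z.1 z.2 i.1) (Sp_sub (hSp z.1 z.2 j.1)) with h | h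
      · exact absurd ((hρ z.1 z.2 i.1 j.1).2 h) hij
      · exact h
    · unfold Np
      rw [mem_filter]
      exact ⟨hZ z.2, hSp z.1 z.2 i.1, hSp z.1 z.2 j.1⟩
  · obtain ⟨i0, hi0⟩ := d.2
    obtain ⟨j0, hj0⟩ := d'.2
    have hij : ρ i0 ≠ ρ j0 := by rw [hi0, hj0]; exact hne
    refine le_trans (le_of_eq ?_) (hbl z.1 z.2 i0 j0 hij)
    unfold bl
    rw [hi0, hj0, ← sup_sum ρ d.1 d'.1 (fun a b => wp T ε ε' G x (Y z.1 a) (Y z.1 b))]
    rfl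

theorem card_At {k : ℕ} (hCTQ : T_CTQ) {M ε : ℝ} (hk : 2 ≤ k) (hM : 0 < M) (hε : 0 < ε)
    {G : SimpleGraph V} (hGd : Gd k M G) (x : V) (ρ : Fin k → Fin k) (d : Cls ρ) :
    (Fintype.card (At ε G x ρ d) : ℝ) ≤ sB k M ε V := by
  have h := hCTQ k M ε hk hM hε V G hGd {i : Fin k // ρ i = d.1} x (by
    obtain ⟨i, hi⟩ := d.2
    exact Fintype.card_pos_iff.2 ⟨⟨i, hi⟩⟩) (le_trans (Fintype.card_subtype_le _) (by simp))
  refine le_trans (le_of_eq ?_) h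
  exact congrArg Nat.cast (Fintype.card_of_subtype _ (fun g =>
    mf.trans ⟨fun h => h.2, fun h => ⟨mu _, h⟩⟩))

theorem card_le_of {A : Type} (F : Finset A) (n : ℕ) (h : ∀ z ∈ F, F.card ≤ n) : F.card ≤ n := by
  rcases F.eq_empty_or_nonempty with rfl | ⟨z, hz⟩
  · simp
  · exact h z hz

theorem card_Cls {k : ℕ} (ρ : Fin k → Fin k) : Fintype.card (Cls ρ) = cls ρ := by
  unfold cls
  rw [Fintype.card_subtype]
  congr 1
  ext d
  simp

end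

theorem pf_SUP (hPACK : T_PACK) (hCTQ : T_CTQ) : T_SUP := by
  intro k T M ε c hk hM hε hc
  have hDd : 1 ≤ Dd k M ε := by
    unfold Dd C2
    have h1 : (0 : ℝ) ≤ (k : ℝ) - 1 := by
      have : (2 : ℝ) ≤ k := by exact_mod_cast hk
      linarith
    have : 0 ≤ ((k : ℝ) - 1) * ((Pool.Agent.H41.HKB.hk k : ℝ) + 1) * M ^ 2 / ε ^ 2 := by
      positivity
    linarith
  have hD0 : 0 < Dd k M ε := by linarith
  have hη : 0 < c / (M ^ 2 * Dd k M ε ^ (2 * k)) := by positivity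
  obtain ⟨κ, hκ, hP⟩ := hPACK k T _ hη
  refine ⟨κ, hκ, ?_⟩
  intro ε' V _ G x ρ Z Y hV hGd hT hcls hZ hinj hSp hρ hbl hcZ
  have hsn : 0 < sn V := by
    unfold sn
    exact Real.sqrt_pos.2 (by exact_mod_cast hV)
  have hs : 0 < sB k M ε V := by unfold sB; positivity
  have hPP := hP (Cls ρ) (At ε G x ρ) (Et T ε ε' G x ρ) (sB k M ε V) {z : V // z ∈ Z}
    (tpl hinj hSp hρ) (by rw [card_Cls]; exact hcls)
    (le_trans (Fintype.card_subtype_le _) (by simp))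
    (fun d d' a b h => Et_symm T ε ε' G x ρ d d' a b h) hs ?_
    (fun z d d' hd => tpl_E hZ hinj hSp hρ hbl z d d' hd) ?_ ?_
  · rw [card_Cls] at hPP
    refine le_trans hPP ?_
    exact_mod_cast Finset.card_le_card_of_injOn (fun f => glue f)
      (fun f hf => by
        have hf' := (mem_filter.1 (Finset.mem_coe.1 hf)).2
        exact Finset.mem_coe.2 (glue_mem f hf')) (fun f _ g _ h => glue_inj h)
  · intro d
    exact card_At hCTQ hk hM hε hGd x ρ d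
  · intro d d' hd a b
    · refine card_le_of _ _ (fun z0 h0 => ?_)
      replace h0 := mf.1 h0
      obtain ⟨i0, hi0⟩ := d.2
      obtain ⟨j0, hj0⟩ := d'.2
      have hE := tpl_E hZ hinj hSp hρ hbl z0 d d' hd
      rw [h0.2.1, h0.2.2] at hE
      have hlt := (hE.1 ⟨i0, hi0⟩ ⟨j0, hj0⟩).1
      refine le_trans ?_ (le_of_lt hlt.2)
      unfold cd
      refine Finset.card_le_card_of_injOn (fun z => z.1) ?_ (fun z _ w _ h => Subtype.ext h)
      intro z hz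
      have hz' := (mf.1 (Finset.mem_coe.1 hz)).2
      refine Finset.mem_coe.2 ?_
      have e1 : a.1 ⟨i0, hi0⟩ = Y z.1 i0 := by rw [← hz'.1]; rfl
      have e2 : b.1 ⟨j0, hj0⟩ = Y z.1 j0 := by rw [← hz'.2]; rfl
      rw [e1, e2, mem_cn]
      exact ⟨(mem_cn.1 (Sp_sub (hSp z.1 z.2 i0))).2.symm,
        (mem_cn.1 (Sp_sub (hSp z.1 z.2 j0))).2.symm⟩
  · rw [Fintype.card_coe]
    refine le_trans (le_of_eq ?_) hcZ
    unfold sB
    have hsq : sn V ^ 2 = Fintype.card V := by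
      unfold sn
      exact Real.sq_sqrt (by positivity)
    rw [mul_pow, mul_pow, hsq, ← pow_mul, mul_comm k 2]
    field_simp

end

end Pool.Agent.H84.HKB
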